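import Mathlib
import Pool.Agent.Helper15.GT.ExtP

/-!
# IV: every pair of points of two curves is the center of a place of the function field of the product
-/

set_option linter.unusedSectionVars false

namespace Pool.Agent.Helper67.IV

open VC VF Function Pool.Agent.Helper21.TO Pool.Agent.Helper15.GT
open scoped TensorProduct

universe u

variable {k K F : Type u} [Field k] [IsAlgClosed k] [CharZero k] [Field K] [Algebra k K] [Field F] [Algebra k F]

/-- If the place `w` has the values prescribed by `x` on the functions of `K`, it lies over `x`. -/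
theorem pl_eq (hK : IsFunctionField k K) (j : K →ₐ[k] F) (w : RPl k F) (x : Place k K)
    (h : ∀ (z : K) (c : k), IsRes x z c → Rs w (j z) c) : w.pl hK j = x := by
  have hle : ∀ z ∈ x.ring, j z ∈ w.ring := fun z hz => by
    obtain ⟨c, hc⟩ := VF.exists_res hK hz
    exact (h z c hc).mem
  have hr : (w.pl hK j).ring = x.ring := by
    ext z
    constructor
    · intro hz
      change j z ∈ w.ring at hz
      by_contra hx
      have h0 : z ≠ 0 := by
        rintro rfl
        exact hx x.ring.zero_mem
      have h1 : IsRes x z⁻¹ 0 := by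
        rw [isRes_zero_iff, ValuationSubring.mem_nonunits_iff_or, inv_inv]
        exact Or.inr hx
      have h2 := h _ _ h1
      unfold Rs at h2
      rw [map_zero, sub_zero, map_inv₀, ValuationSubring.mem_nonunits_iff_or, inv_inv] at h2
      rcases h2 with h2 | h2
      · exact inv_ne_zero ((map_ne_zero j).2 h0) h2
      · exact h2 hz
    · exact hle z
  exact Place.ext hr

/-- the valuation ring of a place as a subalgebra -/
def subal (x : Place k K) : Subalgebra k K where
  carrier := x.ring
  mul_mem' := fun ha hb => x.ring.mul_mem _ _ ha hb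
  add_mem' := fun ha hb => x.ring.add_mem _ _ ha hb
  algebraMap_mem' := x.algebraMap_mem

theorem exists_reshom (hK : IsFunctionField k K) (x : Place k K) :
    ∃ χ : subal x →ₐ[k] k, ∀ z : subal x, IsRes x (z : K) (χ z) := by
  choose f hf using fun z : subal x => VF.exists_res (v := x) hK z.2
  refine ⟨{ toFun := f, map_one' := ?_, map_mul' := ?_, map_zero' := ?_, map_add' := ?_,
            commutes' := ?_ }, hf⟩
  · exact (hf 1).unique isRes_one
  · intro a b
    exact (hf (a * b)).unique ((hf a).mul (hf b))
  · exact (hf 0).unique isRes_zero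
  · intro a b
    exact (hf (a + b)).unique ((hf a).add (hf b))
  · intro r
    exact (hf _).unique (isRes_const r)

/-- Every pair of places of the two factors is the restriction of a rational place. -/
theorem sur {k F₁ F₂ F : Type u} [Field k] [IsAlgClosed k] [CharZero k] [Field F₁] [Algebra k F₁] [Field F₂] [Algebra k F₂]
    [Field F] [Algebra k F] (h1 : IsFunctionField k F₁) (h2 : IsFunctionField k F₂) (k1 : F₁ →ₐ[k] F)
    (k2 : F₂ →ₐ[k] F) (hinj : Function.Injective (Algebra.TensorProduct.productMap k1 k2)) (x : Place k F₁)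
    (y : Place k F₂) : ∃ w : RPl k F, w.pl h1 k1 = x ∧ w.pl h2 k2 = y := by
  obtain ⟨χ₁, hχ₁⟩ := exists_reshom h1 x
  obtain ⟨χ₂, hχ₂⟩ := exists_reshom h2 y
  obtain ⟨f, hf⟩ : ∃ f : (subal x) ⊗[k] (subal y) →ₐ[k] F,
      f = Algebra.TensorProduct.productMap (k1.comp (subal x).val) (k2.comp (subal y).val) := ⟨_, rfl⟩
  have hfe : f = (Algebra.TensorProduct.productMap k1 k2).comp
      (Algebra.TensorProduct.map (subal x).val (subal y).val) := by
    rw [hf]
    apply Algebra.TensorProduct.ext
    · ext z
      simp
    · ext z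
      simp
  have hfi : Function.Injective f := by
    rw [hfe]
    have hm : Function.Injective (Algebra.TensorProduct.map (subal x).val (subal y).val) :=
      TensorProduct.map_injective_of_flat_flat (subal x).val.toLinearMap (subal y).val.toLinearMap
        Subtype.val_injective Subtype.val_injective
    exact hinj.comp hm
  obtain ⟨e, he⟩ : ∃ e : (subal x) ⊗[k] (subal y) ≃ₐ[k] f.range, e = AlgEquiv.ofInjective f hfi := ⟨_, rfl⟩
  obtain ⟨w, hw⟩ := exists_rpl f.range ((Algebra.TensorProduct.productMap χ₁ χ₂).comp e.symm.toAlgHom)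
  have hval : ∀ t, Rs w (f t) (Algebra.TensorProduct.productMap χ₁ χ₂ t) := by
    intro t
    have h := hw (e t)
    have e1 : ((e t : f.range) : F) = f t := by
      rw [he]
      rfl
    have e2 : ((Algebra.TensorProduct.productMap χ₁ χ₂).comp e.symm.toAlgHom) (e t) =
        Algebra.TensorProduct.productMap χ₁ χ₂ t := by
      show (Algebra.TensorProduct.productMap χ₁ χ₂) (e.symm (e t)) = _
      rw [e.symm_apply_apply]
    rw [e1, e2] at h
    exact h
  refine ⟨w, pl_eq h1 k1 w x fun z c hz => ?_, pl_eq h2 k2 w y fun z c hz => ?_⟩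
  · have h := hval ((⟨z, hz.mem⟩ : subal x) ⊗ₜ[k] 1)
    have e1 : f ((⟨z, hz.mem⟩ : subal x) ⊗ₜ[k] 1) = k1 z := by
      rw [hf, Algebra.TensorProduct.productMap_apply_tmul, map_one, mul_one]
      rfl
    have e2 : Algebra.TensorProduct.productMap χ₁ χ₂ ((⟨z, hz.mem⟩ : subal x) ⊗ₜ[k] 1) = c := by
      rw [Algebra.TensorProduct.productMap_apply_tmul, map_one, mul_one]
      exact (hχ₁ ⟨z, hz.mem⟩).unique hz
    rw [e1, e2] at h
    exact h
  · have h := hval (1 ⊗ₜ[k] (⟨z, hz.mem⟩ : subal y))
    have e1 : f (1 ⊗ₜ[k] (⟨z, hz.mem⟩ : subal y)) = k2 z := by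
      rw [hf, Algebra.TensorProduct.productMap_apply_tmul, map_one, one_mul]
      rfl
    have e2 : Algebra.TensorProduct.productMap χ₁ χ₂ (1 ⊗ₜ[k] (⟨z, hz.mem⟩ : subal y)) = c := by
      rw [Algebra.TensorProduct.productMap_apply_tmul, map_one, one_mul]
      exact (hχ₂ ⟨z, hz.mem⟩).unique hz
    rw [e1, e2] at h
    exact h

end Pool.Agent.Helper67.IV
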